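import Mathlib

/-!
# Arithmetic core for the splitting sums of the inverse Ramsey function
-/

namespace Pool.Agent.H21.RS

variable {M : ℕ → ℕ}

lemma two_part (hI : ∀ a b, 1 ≤ b → M a + M (b - 1) + 1 + min (a + 1) b ≤ M (a + b))
    (hII : ∀ a, 1 ≤ a → M a ≤ M (a - 1) + a + 2) (a b : ℕ) (ha : 1 ≤ a) (hb : 1 ≤ b) :
    M a + M b ≤ M (a + b) + 1 := by
  rcases le_total b a with h | h
  · have h1 := hI a b hb
    have h2 := hII b hb
    rw [min_eq_right (by omega)] at h1
    omega
  · have h1 := hI b a ha
    have h2 := hII a ha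
    rw [min_eq_right (by omega), add_comm b a] at h1
    omega

lemma inc_of_special (hI : ∀ a b, 1 ≤ b → M a + M (b - 1) + 1 + min (a + 1) b ≤ M (a + b))
    (hII : ∀ a, 1 ≤ a → M a ≤ M (a - 1) + a + 2) (a b : ℕ) (hb : 1 ≤ b) (hab : b ≤ a)
    (hs : M a + M b = M (a + b) + 1) : M b = M (b - 1) + b + 2 := by
  have h1 := hI a b hb
  have h2 := hII b hb
  rw [min_eq_right (by omega)] at h1
  omega

lemma inc_sum (hI : ∀ a b, 1 ≤ b → M a + M (b - 1) + 1 + min (a + 1) b ≤ M (a + b))
    (x y : ℕ) (hy : 1 ≤ y) (hxy : y ≤ x)
    (hx' : M x = M (x - 1) + x + 2) (hy' : M y = M (y - 1) + y + 2)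
    (hs : M x + M y = M (x + y) + 1) : M (x + y) ≤ M (x + y - 1) + x + 2 := by
  have h1 := hI (x - 1) y hy
  rw [min_eq_right (by omega)] at h1
  have e : x - 1 + y = x + y - 1 := by omega
  rw [e] at h1
  omega

/-- The arithmetic core: a split costs at most one. -/
theorem core (h1 : M 1 = 4) (h3 : 12 ≤ M 3)
    (hI : ∀ a b, 1 ≤ b → M a + M (b - 1) + 1 + min (a + 1) b ≤ M (a + b))
    (hII : ∀ a, 1 ≤ a → M a ≤ M (a - 1) + a + 2) :
    ∀ (n : ℕ) (A : Multiset ℕ), Multiset.card A = n → A ≠ 0 → (∀ a ∈ A, 1 ≤ a) →
      (A.map M).sum ≤ M A.sum + 1 := by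
  intro n
  induction n using Nat.strong_induction_on with
  | _ n ih =>
  intro A hcard hne hpos
  -- a normal pair reduces the number of parts
  by_cases hnorm : ∃ (a b : ℕ) (C : Multiset ℕ), A = a ::ₘ b ::ₘ C ∧ M a + M b ≤ M (a + b)
  · obtain ⟨a, b, C, hA, hab⟩ := hnorm
    have hc : Multiset.card ((a + b) ::ₘ C) < n := by
      rw [← hcard, hA]
      simp
    have h := ih _ hc ((a + b) ::ₘ C) rfl (Multiset.cons_ne_zero) (by
      intro x hx
      rw [Multiset.mem_cons] at hx
      rcases hx with rfl | hx
      · have := hpos a (by rw [hA]; simp)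
        omega
      · exact hpos x (by rw [hA]; simp [hx]))
    rw [Multiset.map_cons, Multiset.sum_cons, Multiset.sum_cons] at h
    rw [hA, Multiset.map_cons, Multiset.map_cons, Multiset.sum_cons, Multiset.sum_cons,
      Multiset.sum_cons, Multiset.sum_cons]
    have e : a + b + C.sum = a + (b + C.sum) := by ring
    rw [e] at h
    omega
  · have hspec : ∀ (a b : ℕ) (C : Multiset ℕ), A = a ::ₘ b ::ₘ C →
        M a + M b = M (a + b) + 1 := by
      intro a b C hA
      by_contra hcon
      apply hnorm
      refine ⟨a, b, C, hA, ?_⟩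
      have := two_part hI hII a b (hpos a (by rw [hA]; simp)) (hpos b (by rw [hA]; simp))
      omega
    -- the maximal part
    obtain ⟨m, hm, hmax⟩ : ∃ m ∈ A, ∀ x ∈ A, x ≤ m := by
      have hne' : A.toFinset.Nonempty := by
        rw [Multiset.toFinset_nonempty]
        exact hne
      obtain ⟨m, hm, hmax⟩ := A.toFinset.exists_max_image id hne'
      exact ⟨m, Multiset.mem_toFinset.1 hm, fun x hx => hmax x (Multiset.mem_toFinset.2 hx)⟩
    obtain ⟨A', rfl⟩ := Multiset.exists_cons_of_mem hm
    have hm1 : 1 ≤ m := hpos m (by simp)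
    by_cases hA'0 : A' = 0
    · subst hA'0
      simp
    obtain ⟨x0, hx0⟩ := Multiset.exists_mem_of_ne_zero hA'0
    obtain ⟨A1, rfl⟩ := Multiset.exists_cons_of_mem hx0
    by_cases hA1 : A1 = 0
    · subst hA1
      have := two_part hI hII m x0 hm1 (hpos x0 (by simp))
      simpa using this
    obtain ⟨y0, hy0⟩ := Multiset.exists_mem_of_ne_zero hA1
    obtain ⟨A2, rfl⟩ := Multiset.exists_cons_of_mem hy0
    have hincr : ∀ z C, m ::ₘ x0 ::ₘ y0 ::ₘ A2 = m ::ₘ z ::ₘ C → M z = M (z - 1) + z + 2 := by
      intro z C hC
      have hzA : z ∈ m ::ₘ x0 ::ₘ y0 ::ₘ A2 := by rw [hC]; simp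
      exact inc_of_special hI hII m z (hpos z hzA) (hmax z hzA) (hspec m z C hC)
    have hx0p : 1 ≤ x0 := hpos x0 (by simp)
    have hy0p : 1 ≤ y0 := hpos y0 (by simp)
    have hix := hincr x0 _ rfl
    have hiy := hincr y0 (x0 ::ₘ A2) (by rw [Multiset.cons_swap x0 y0])
    have hxm : x0 ≤ m := hmax x0 (by simp)
    have hym : y0 ≤ m := hmax y0 (by simp)
    have hsxy : M x0 + M y0 = M (x0 + y0) + 1 := hspec x0 y0 (m ::ₘ A2) (by
      rw [Multiset.cons_swap m x0, Multiset.cons_swap m y0])
    -- increment at x0 + y0
    have hinc : M (x0 + y0) ≤ M (x0 + y0 - 1) + max x0 y0 + 2 := by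
      rcases le_total y0 x0 with h | h
      · rw [max_eq_left h]
        exact inc_sum hI x0 y0 hy0p h hix hiy hsxy
      · rw [max_eq_right h]
        have := inc_sum hI y0 x0 hx0p h hiy hix (by rw [add_comm, hsxy, add_comm x0 y0])
        rw [add_comm y0 x0] at this
        exact this
    by_cases hA2 : A2 = 0
    · -- three parts
      subst hA2
      have h5 := hI m (x0 + y0) (by omega)
      simp only [Multiset.map_cons, Multiset.map_zero, Multiset.sum_cons, Multiset.sum_zero,
        add_zero]
      rcases le_total x0 y0 with h | h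
      · rw [max_eq_right h] at hinc
        rcases le_total (m + 1) (x0 + y0) with h' | h'
        · rw [min_eq_left h'] at h5; omega
        · rw [min_eq_right h'] at h5; omega
      · rw [max_eq_left h] at hinc
        rcases le_total (m + 1) (x0 + y0) with h' | h'
        · rw [min_eq_left h'] at h5; omega
        · rw [min_eq_right h'] at h5; omega
    · -- at least four parts
      have merge : ∀ (x y : ℕ) (S : Multiset ℕ), m ::ₘ x0 ::ₘ y0 ::ₘ A2 = x ::ₘ y ::ₘ S →
          S ≠ 0 → M (x + y) ≤ M (x + y - 1) + min (S.sum + 1) (x + y) →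
          ((m ::ₘ x0 ::ₘ y0 ::ₘ A2).map M).sum ≤ M (m ::ₘ x0 ::ₘ y0 ::ₘ A2).sum + 1 := by
        intro x y S hS hS0 hD
        have hxp : 1 ≤ x := hpos x (by rw [hS]; simp)
        have hyp : 1 ≤ y := hpos y (by rw [hS]; simp)
        have hcS : Multiset.card S < n := by
          rw [← hcard, hS]
          simp
        have hIS := ih _ hcS S rfl hS0 (fun z hz => hpos z (by rw [hS]; simp [hz]))
        have h5 := hI S.sum (x + y) (by omega)
        have h6 := hspec x y S hS
        rw [hS, Multiset.map_cons, Multiset.map_cons, Multiset.sum_cons, Multiset.sum_cons,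
          Multiset.sum_cons, Multiset.sum_cons]
        have e : x + (y + S.sum) = S.sum + (x + y) := by ring
        rw [e]
        omega
      obtain ⟨z0, hz0⟩ := Multiset.exists_mem_of_ne_zero hA2
      obtain ⟨A3, rfl⟩ := Multiset.exists_cons_of_mem hz0
      have hz0p : 1 ≤ z0 := hpos z0 (by simp)
      by_cases hm2 : m = 1
      · -- all parts are one
        have ex : x0 = 1 := by omega
        have ey : y0 = 1 := by omega
        subst hm2 ex ey
        have hc3 : Multiset.card (3 ::ₘ z0 ::ₘ A3) < n := by
          rw [← hcard]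
          simp
        have h := ih _ hc3 (3 ::ₘ z0 ::ₘ A3) rfl (Multiset.cons_ne_zero) (by
          intro w hw
          rw [Multiset.mem_cons] at hw
          rcases hw with rfl | hw
          · norm_num
          · exact hpos w (by
              rw [Multiset.mem_cons, Multiset.mem_cons, Multiset.mem_cons]
              right; right; right; exact hw))
        simp only [Multiset.map_cons, Multiset.sum_cons] at h ⊢
        have e : 1 + (1 + (1 + (z0 + A3.sum))) = 3 + (z0 + A3.sum) := by ring
        rw [e]
        omega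
      · have hm2' : 2 ≤ m := by omega
        by_cases h1A : ∃ w ∈ x0 ::ₘ y0 ::ₘ z0 ::ₘ A3, w = 1
        · obtain ⟨w, hw, rfl⟩ := h1A
          obtain ⟨S, hS⟩ := Multiset.exists_cons_of_mem hw
          have hS' : m ::ₘ x0 ::ₘ y0 ::ₘ z0 ::ₘ A3 = m ::ₘ 1 ::ₘ S := by rw [hS]
          have hcS : 2 ≤ Multiset.card S := by
            have := congrArg Multiset.card hS
            simp at this
            omega
          have hS0 : S ≠ 0 := by
            intro h0
            rw [h0] at hcS
            simp at hcS
          have hSsum : 2 ≤ S.sum := by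
            have h7 : Multiset.card S • 1 ≤ S.sum := by
              apply Multiset.card_nsmul_le_sum
              intro z hz
              exact hpos z (by rw [hS']; simp [hz])
            simp at h7
            omega
          have h6 := hspec m 1 S hS'
          apply merge m 1 S hS' hS0
          rw [h1] at h6
          have e : m + 1 - 1 = m := by omega
          rw [e]
          have : 3 ≤ min (S.sum + 1) (m + 1) := le_min (by omega) (by omega)
          omega
        · push Not at h1A
          have hx2 : 2 ≤ x0 := by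
            have := h1A x0 (by simp)
            omega
          have hy2 : 2 ≤ y0 := by
            have := h1A y0 (by simp)
            omega
          apply merge x0 y0 (m ::ₘ z0 ::ₘ A3) (by
            rw [Multiset.cons_swap m x0, Multiset.cons_swap m y0]) (Multiset.cons_ne_zero)
          have : max x0 y0 + 2 ≤ min ((m ::ₘ z0 ::ₘ A3).sum + 1) (x0 + y0) := by
            rw [Multiset.sum_cons, Multiset.sum_cons]
            have hz2 : 2 ≤ z0 := by
              have := h1A z0 (by simp)
              omega
            apply le_min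
            · have : max x0 y0 ≤ m := max_le hxm hym
              omega
            · rcases le_total x0 y0 with h | h
              · rw [max_eq_right h]; omega
              · rw [max_eq_left h]; omega
          omega

end Pool.Agent.H21.RS
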