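import Mathlib

/-!
# Definitions for MP_47bfa8_co: the inverse Ramsey function and its splitting sums
-/

namespace Pool.Agent.H21.RS

/-- `om x`: the least clique number of a graph on `x` vertices with independence number at
most `2`. -/
noncomputable def om (x : ℕ) : ℕ :=
  sInf {w | ∃ G : SimpleGraph (Fin x), G.indepNum ≤ 2 ∧ G.cliqueNum = w}

/-- `R3 l`: the Ramsey number `R(3, l)`, the least `R` such that every graph on at least `R`
vertices contains three pairwise non-adjacent vertices or a clique on `l` vertices. -/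
noncomputable def R3 (l : ℕ) : ℕ :=
  sInf {R | ∀ n, R ≤ n → ∀ G : SimpleGraph (Fin n), ¬ G.IndepSetFree 3 ∨ ¬ G.CliqueFree l}

/-- `qs k`: the least value of the sum of `om (2 k_i + 1) - 1` over all nonempty lists of
positive integers `k_i` with sum `k`. -/
noncomputable def qs (k : ℕ) : ℕ :=
  sInf {c | ∃ l : List ℕ, l ≠ [] ∧ (∀ a ∈ l, 1 ≤ a) ∧ l.sum = k ∧
    (l.map (fun a => om (2 * a + 1) - 1)).sum = c}

end Pool.Agent.H21.RS
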