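import Pool.Agent.H21.RS.Main

/-!
# The question is equivalent to a statement about pairs of Ramsey numbers
-/

namespace Pool.Agent.H21.RS

lemma M_mono {a b : ℕ} (h : a ≤ b) : M a ≤ M b := by
  have h1 := M_add_one a
  have h2 := M_add_one b
  have h3 := N_mono (show a + 1 ≤ b + 1 by omega)
  omega

lemma R3_M (a : ℕ) : R3 (a + 2) = M a + 2 := by
  have h1 := R3_eq (a + 1)
  have h2 := M_add_one a
  have e : a + 1 + 1 = a + 2 := rfl
  rw [e] at h1
  omega

lemma pair_super (hP : ∀ a b, 1 ≤ b → b ≤ a → 2 ≤ a → Even (R3 (a + 2)) → Even (R3 (b + 2)) →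
      R3 (a + b + 2) + 3 ≠ R3 (a + 2) + R3 (b + 2)) (a b : ℕ) (ha : 1 ≤ a) (hb : 1 ≤ b)
    (hab : 3 ≤ a + b) : M a / 2 + M b / 2 ≤ M (a + b) / 2 := by
  have h1 := two_part M_I M_II a b ha hb
  by_cases h2 : M a + M b ≤ M (a + b)
  · omega
  · have h3 : M a + M b = M (a + b) + 1 := by omega
    by_cases hea : Even (M a)
    · by_cases heb : Even (M b)
      · exfalso
        rcases le_total b a with h | h
        · refine hP a b hb h (by omega) ?_ ?_ ?_
          · rw [R3_M]; exact hea.add (by decide)
          · rw [R3_M]; exact heb.add (by decide)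
          · rw [R3_M, R3_M, R3_M]; omega
        · refine hP b a ha h (by omega) ?_ ?_ ?_
          · rw [R3_M]; exact heb.add (by decide)
          · rw [R3_M]; exact hea.add (by decide)
          · rw [add_comm b a, R3_M, R3_M, R3_M]; omega
      · rw [Nat.not_even_iff] at heb
        omega
    · rw [Nat.not_even_iff] at hea
      omega

lemma multi_super (hP : ∀ a b, 1 ≤ b → b ≤ a → 2 ≤ a → Even (R3 (a + 2)) → Even (R3 (b + 2)) →
      R3 (a + b + 2) + 3 ≠ R3 (a + 2) + R3 (b + 2)) :
    ∀ (n : ℕ) (A : Multiset ℕ), Multiset.card A = n → A ≠ 0 → (∀ a ∈ A, 1 ≤ a) →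
      A ≠ {1, 1} → (A.map (fun a => M a / 2)).sum ≤ M A.sum / 2 := by
  intro n
  induction n using Nat.strong_induction_on with
  | _ n ih =>
  intro A hcard hne hpos h11
  obtain ⟨a, ha⟩ := Multiset.exists_mem_of_ne_zero hne
  obtain ⟨A1, rfl⟩ := Multiset.exists_cons_of_mem ha
  by_cases hA1 : A1 = 0
  · subst hA1
    simp
  obtain ⟨b, hb⟩ := Multiset.exists_mem_of_ne_zero hA1
  obtain ⟨A2, rfl⟩ := Multiset.exists_cons_of_mem hb
  have key : ∀ (x y : ℕ) (S : Multiset ℕ), a ::ₘ b ::ₘ A2 = x ::ₘ y ::ₘ S → 3 ≤ x + y →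
      ((a ::ₘ b ::ₘ A2).map (fun a => M a / 2)).sum ≤ M (a ::ₘ b ::ₘ A2).sum / 2 := by
    intro x y S hS hxy
    have hx1 : 1 ≤ x := hpos x (by rw [hS]; simp)
    have hy1 : 1 ≤ y := hpos y (by rw [hS]; simp)
    have hp := pair_super hP x y hx1 hy1 hxy
    have hc : Multiset.card ((x + y) ::ₘ S) < n := by
      rw [← hcard, hS]
      simp
    have h := ih _ hc ((x + y) ::ₘ S) rfl (Multiset.cons_ne_zero) (by
      intro z hz
      rw [Multiset.mem_cons] at hz
      rcases hz with rfl | hz
      · omega
      · exact hpos z (by rw [hS]; simp [hz])) (by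
      intro h0
      have : x + y ∈ ({1, 1} : Multiset ℕ) := by
        rw [← h0]; simp
      simp at this
      omega)
    rw [Multiset.map_cons, Multiset.sum_cons, Multiset.sum_cons] at h
    rw [hS, Multiset.map_cons, Multiset.map_cons, Multiset.sum_cons, Multiset.sum_cons,
      Multiset.sum_cons, Multiset.sum_cons]
    have e : x + y + S.sum = x + (y + S.sum) := by ring
    rw [e] at h
    omega
  have ha1 : 1 ≤ a := hpos a (by simp)
  have hb1 : 1 ≤ b := hpos b (by simp)
  by_cases hab : 3 ≤ a + b
  · exact key a b A2 rfl hab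
  · have ea : a = 1 := by omega
    have eb : b = 1 := by omega
    subst ea eb
    by_cases hA2 : A2 = 0
    · exfalso
      apply h11
      rw [hA2]
      rfl
    · obtain ⟨c, hc⟩ := Multiset.exists_mem_of_ne_zero hA2
      obtain ⟨A3, rfl⟩ := Multiset.exists_cons_of_mem hc
      have hc1 : 1 ≤ c := hpos c (by simp)
      by_cases hc2 : c = 1
      · subst hc2
        have h := ih (Multiset.card (3 ::ₘ A3)) (by rw [← hcard]; simp) (3 ::ₘ A3) rfl
          (Multiset.cons_ne_zero) (by
          intro z hz
          rw [Multiset.mem_cons] at hz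
          rcases hz with rfl | hz
          · norm_num
          · exact hpos z (by
              rw [Multiset.mem_cons, Multiset.mem_cons, Multiset.mem_cons]
              right; right; right; exact hz)) (by
          intro h0
          have : 3 ∈ ({1, 1} : Multiset ℕ) := by
            rw [← h0]; simp
          simp at this)
        rw [Multiset.map_cons, Multiset.sum_cons, Multiset.sum_cons] at h
        simp only [Multiset.map_cons, Multiset.sum_cons]
        have h1 := M_one
        have h3 := M_three
        have e : 1 + (1 + (1 + A3.sum)) = 3 + A3.sum := by ring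
        rw [e, h1]
        omega
      · exact key 1 c (1 ::ₘ A3) (by
          rw [Multiset.cons_swap 1 c A3]) (by omega)

/-- Q1 is equivalent to a statement about pairs of Ramsey numbers. -/
theorem equivalence : (∀ k, 5 ≤ k → qs k = om (2 * k + 1) - 1) ↔
    ∀ a b, 1 ≤ b → b ≤ a → 2 ≤ a → Even (R3 (a + 2)) → Even (R3 (b + 2)) →
      R3 (a + b + 2) + 3 ≠ R3 (a + 2) + R3 (b + 2) := by
  constructor
  · intro hQ a b hb hab ha hea heb heq
    rw [R3_M] at hea heb
    rw [R3_M, R3_M, R3_M] at heq
    have hea' : Even (M a) := by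
      rw [Nat.even_add] at hea
      exact hea.2 (by decide)
    have heb' : Even (M b) := by
      rw [Nat.even_add] at heb
      exact heb.2 (by decide)
    obtain ⟨x, hx⟩ := hea'
    obtain ⟨y, hy⟩ := heb'
    have hMa := M_mono (show 1 ≤ a by omega)
    have hMb := M_mono hb
    rw [M_one] at hMa hMb
    have hM3 := M_mono (show 3 ≤ a + b by omega)
    have hM3' := M_three
    have hk5 : 5 ≤ x + y := by omega
    have h1 := hQ (x + y) hk5
    have h2 : om (2 * x + 1) ≤ a + 1 := by
      rw [om_le_iff, ← M_add_one]; omega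
    have h3 : om (2 * y + 1) ≤ b + 1 := by
      rw [om_le_iff, ← M_add_one]; omega
    have h4 : ¬ om (2 * (x + y) + 1) ≤ a + b + 1 := by
      rw [om_le_iff, ← M_add_one]; omega
    have h5 : qs (x + y) ≤ (om (2 * x + 1) - 1) + (om (2 * y + 1) - 1) := by
      apply Nat.sInf_le
      refine ⟨[x, y], by simp, ?_, by simp, by simp⟩
      intro z hz
      simp at hz
      rcases hz with rfl | rfl <;> omega
    omega
  · intro hP k hk
    obtain ⟨l, h1, h2, h3, h4⟩ := qs_mem (show 1 ≤ k by omega)
    have h6 := qs_le (show 1 ≤ k by omega)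
    by_contra hcon
    have h7 : ¬ om (2 * k + 1) ≤ qs k + 1 := by omega
    rw [om_le_iff, ← M_add_one] at h7
    set B : Multiset ℕ := ((l.map (fun a => om (2 * a + 1) - 1) : List ℕ) : Multiset ℕ) with hB
    have hBsum : B.sum = qs k := by rw [hB, Multiset.sum_coe, h4]
    have hB0 : B ≠ 0 := by
      intro h0
      rw [hB, Multiset.coe_eq_zero] at h0
      exact h1 (List.map_eq_nil_iff.1 h0)
    have hBpos : ∀ a ∈ B, 1 ≤ a := by
      intro a ha
      rw [hB, Multiset.mem_coe, List.mem_map] at ha
      obtain ⟨b, hb, rfl⟩ := ha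
      have := two_le_om (h2 b hb)
      omega
    have hsum : ∀ l : List ℕ, (∀ a ∈ l, 1 ≤ a) →
        l.sum ≤ ((l.map (fun a => om (2 * a + 1) - 1)).map (fun a => M a / 2)).sum := by
      intro l
      induction l with
      | nil => intro _; simp
      | cons a l ih =>
        intro hl
        have h1 := ih (fun b hb => hl b (by simp [hb]))
        have h2 := part_le (hl a (by simp))
        simp only [List.map_cons, List.sum_cons]
        omega
    have h8 := hsum l h2
    rw [h3] at h8
    by_cases h11 : B = {1, 1}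
    · have h9 : (B.map (fun a => M a / 2)).sum = 4 := by
        rw [h11]
        have : ({1, 1} : Multiset ℕ) = 1 ::ₘ 1 ::ₘ 0 := rfl
        rw [this]
        simp [M_one]
      rw [hB, Multiset.map_coe, Multiset.sum_coe] at h9
      omega
    · have h9 := multi_super hP _ B rfl hB0 hBpos h11
      rw [hBsum, hB, Multiset.map_coe, Multiset.sum_coe] at h9
      omega

end Pool.Agent.H21.RS
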