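import Mathlib

/-!
# Triangle-free graphs with small independent sets
-/

namespace Pool.Agent.H21.RS

/-- Some triangle-free graph on `V` has no independent set of more than `p` vertices. -/
def GoodOn (V : Type) (p : ℕ) : Prop :=
  ∃ H : SimpleGraph V, (∀ a b c, H.Adj a b → H.Adj b c → H.Adj a c → False) ∧
    ∀ s : Finset V, (∀ x ∈ s, ∀ y ∈ s, ¬ H.Adj x y) → s.card ≤ p

lemma GoodOn.comap {V W : Type} {p : ℕ} (f : W ↪ V) (h : GoodOn V p) : GoodOn W p := by
  obtain ⟨H, h1, h2⟩ := h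
  refine ⟨H.comap f, fun a b c hab hbc hac => h1 (f a) (f b) (f c) hab hbc hac, fun s hs => ?_⟩
  rw [← Finset.card_map f]
  apply h2
  intro x hx y hy
  obtain ⟨x', hx', rfl⟩ := Finset.mem_map.1 hx
  obtain ⟨y', hy', rfl⟩ := Finset.mem_map.1 hy
  exact hs x' hx' y' hy'

lemma GoodOn.mono {V : Type} {p q : ℕ} (hpq : p ≤ q) (h : GoodOn V p) : GoodOn V q := by
  obtain ⟨H, h1, h2⟩ := h
  exact ⟨H, h1, fun s hs => (h2 s hs).trans hpq⟩

lemma goodOn_fin_of_card {V : Type} [Fintype V] {p n : ℕ} (hn : n ≤ Fintype.card V)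
    (h : GoodOn V p) : GoodOn (Fin n) p :=
  h.comap ((Fin.castLEEmb hn).trans (Fintype.equivFin V).symm.toEmbedding)

/-- deleting a closed neighbourhood -/
lemma good_step {n a : ℕ} (h : GoodOn (Fin n) (a + 1)) : GoodOn (Fin (n - (a + 2))) a := by
  classical
  rcases Nat.eq_zero_or_pos n with h0 | hpos
  · subst h0
    refine ⟨⊥, fun _ _ _ h => by simp at h, fun s _ => ?_⟩
    have : s.card ≤ 0 := by
      have := Finset.card_le_univ s
      simpa using this
    omega
  · obtain ⟨H, h1, h2⟩ := h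
    let v : Fin n := ⟨0, hpos⟩
    have hdeg : (Finset.univ.filter (fun w => H.Adj v w)).card ≤ a + 1 := by
      apply h2
      intro x hx y hy hxy
      rw [Finset.mem_filter] at hx hy
      exact h1 v x y hx.2 hxy hy.2
    let W := {w : Fin n // w ≠ v ∧ ¬ H.Adj v w}
    have hcard : n - (a + 2) ≤ Fintype.card W := by
      rw [Fintype.card_subtype]
      have hsplit : (Finset.univ : Finset (Fin n)) ⊆ insert v
          ((Finset.univ.filter (fun w => H.Adj v w)) ∪
          (Finset.univ.filter (fun w => w ≠ v ∧ ¬ H.Adj v w))) := by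
        intro w _
        rw [Finset.mem_insert, Finset.mem_union, Finset.mem_filter, Finset.mem_filter]
        by_cases hw : w = v
        · left; exact hw
        · by_cases hvw : H.Adj v w
          · right; left; exact ⟨Finset.mem_univ _, hvw⟩
          · right; right; exact ⟨Finset.mem_univ _, hw, hvw⟩
      have hc := Finset.card_le_card hsplit
      rw [Finset.card_univ, Fintype.card_fin] at hc
      have hc2 := hc.trans ((Finset.card_insert_le _ _).trans
        (Nat.add_le_add_right (Finset.card_union_le _ _) 1))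
      omega
    apply goodOn_fin_of_card hcard
    refine ⟨H.comap (fun w : W => w.1), fun x y z hxy hyz hxz =>
      h1 x.1 y.1 z.1 hxy hyz hxz, fun s hs => ?_⟩
    have hins : (insert v (s.map ⟨fun w : W => w.1, Subtype.val_injective⟩)).card ≤ a + 1 := by
      apply h2
      intro x hx y hy hxy
      rw [Finset.mem_insert, Finset.mem_map] at hx hy
      rcases hx with rfl | ⟨x', hx', rfl⟩
      · rcases hy with rfl | ⟨y', hy', rfl⟩
        · exact H.loopless.irrefl _ hxy
        · exact y'.2.2 hxy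
      · rcases hy with rfl | ⟨y', hy', rfl⟩
        · exact x'.2.2 hxy.symm
        · exact hs x' hx' y' hy' hxy
    rw [Finset.card_insert_of_notMem, Finset.card_map] at hins
    · omega
    · intro hmem
      obtain ⟨w, _, hw⟩ := Finset.mem_map.1 hmem
      exact w.2.1 hw

/-- the glued graph -/
def glue {V W : Type} {m : ℕ} (H₁ : SimpleGraph V) (H₂ : SimpleGraph W) (f : Fin m → V)
    (g : Fin m → W) : SimpleGraph (V ⊕ W ⊕ Fin m) where
  Adj x y := match x, y with
    | .inl v, .inl v' => H₁.Adj v v'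
    | .inr (.inl w), .inr (.inl w') => H₂.Adj w w'
    | .inl v, .inr (.inl w) => ∃ i, v = f i ∧ w = g i
    | .inr (.inl w), .inl v => ∃ i, v = f i ∧ w = g i
    | .inl v, .inr (.inr c) => H₁.Adj (f c) v
    | .inr (.inr c), .inl v => H₁.Adj (f c) v
    | .inr (.inl w), .inr (.inr c) => H₂.Adj (g c) w
    | .inr (.inr c), .inr (.inl w) => H₂.Adj (g c) w
    | .inr (.inr _), .inr (.inr _) => False
  symm := ⟨by
    rintro (v | w | c) (v' | w' | c') h
    · exact H₁.adj_symm h
    · exact h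
    · exact h
    · exact h
    · exact H₂.adj_symm h
    · exact h
    · exact h
    · exact h
    · exact h⟩
  loopless := ⟨by
    rintro (v | w | c) h
    · exact H₁.loopless.irrefl _ h
    · exact H₂.loopless.irrefl _ h
    · exact h⟩

/-- The gluing construction: `N (a + b) ≥ N a + N b + m`. -/
lemma good_glue {V W : Type} {m a b : ℕ} (H₁ : SimpleGraph V)
    (H₂ : SimpleGraph W)
    (t₁ : ∀ a b c, H₁.Adj a b → H₁.Adj b c → H₁.Adj a c → False)
    (t₂ : ∀ a b c, H₂.Adj a b → H₂.Adj b c → H₂.Adj a c → False)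
    (i₁ : ∀ s : Finset V, (∀ x ∈ s, ∀ y ∈ s, ¬ H₁.Adj x y) → s.card ≤ a)
    (i₂ : ∀ s : Finset W, (∀ x ∈ s, ∀ y ∈ s, ¬ H₂.Adj x y) → s.card ≤ b)
    (f : Fin m → V) (g : Fin m → W) (hf : Function.Injective f) (hg : Function.Injective g)
    (hfi : ∀ i j, ¬ H₁.Adj (f i) (f j)) (hgi : ∀ i j, ¬ H₂.Adj (g i) (g j)) :
    GoodOn (V ⊕ W ⊕ Fin m) (a + b) := by
  classical
  refine ⟨glue H₁ H₂ f g, ?_, ?_⟩
  · rintro (v | w | c) (v' | w' | c') (v'' | w'' | c'') h1 h2 h3
    · exact t₁ _ _ _ h1 h2 h3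
    · obtain ⟨i, hi1, hi2⟩ := h2
      obtain ⟨j, hj1, hj2⟩ := h3
      have : i = j := hg (by rw [← hi2, hj2])
      subst this
      rw [hi1, hj1] at h1
      exact H₁.loopless.irrefl _ h1
    · exact t₁ _ _ _ h2 h1.symm h3
    · obtain ⟨i, hi1, hi2⟩ := h1
      obtain ⟨j, hj1, hj2⟩ := h2
      have : i = j := hg (by rw [← hi2, hj2])
      subst this
      rw [hi1, hj1] at h3
      exact H₁.loopless.irrefl _ h3
    · obtain ⟨i, hi1, hi2⟩ := h1
      obtain ⟨j, hj1, hj2⟩ := h3
      have : i = j := hf (by rw [← hi1, hj1])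
      subst this
      rw [hi2, hj2] at h2
      exact H₂.loopless.irrefl _ h2
    · obtain ⟨i, hi1, hi2⟩ := h1
      have h3' : H₁.Adj (f c'') v := h3
      rw [hi1] at h3'
      exact hfi _ _ h3'
    · exact t₁ _ _ _ h1 h3 h2
    · obtain ⟨i, hi1, hi2⟩ := h3
      have h1' : H₁.Adj (f c') v := h1
      rw [hi1] at h1'
      exact hfi _ _ h1'
    · exact h2
    · obtain ⟨i, hi1, hi2⟩ := h1
      obtain ⟨j, hj1, hj2⟩ := h3
      have : i = j := hg (by rw [← hi2, hj2])
      subst this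
      rw [hi1, hj1] at h2
      exact H₁.loopless.irrefl _ h2
    · obtain ⟨i, hi1, hi2⟩ := h1
      obtain ⟨j, hj1, hj2⟩ := h2
      have : i = j := hf (by rw [← hi1, hj1])
      subst this
      rw [hi2, hj2] at h3
      exact H₂.loopless.irrefl _ h3
    · obtain ⟨i, hi1, hi2⟩ := h1
      have h2' : H₁.Adj (f c'') v' := h2
      rw [hi1] at h2'
      exact hfi _ _ h2'
    · obtain ⟨i, hi1, hi2⟩ := h2
      obtain ⟨j, hj1, hj2⟩ := h3
      have : i = j := hf (by rw [← hi1, hj1])
      subst this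
      rw [hi2, hj2] at h1
      exact H₂.loopless.irrefl _ h1
    · exact t₂ _ _ _ h1 h2 h3
    · exact t₂ _ _ _ h2 h1.symm h3
    · obtain ⟨i, hi1, hi2⟩ := h3
      have h1' : H₂.Adj (g c') w := h1
      rw [hi2] at h1'
      exact hgi _ _ h1'
    · exact t₂ _ _ _ h1 h3 h2
    · exact h2
    · exact t₁ _ _ _ h1 h2 h3
    · obtain ⟨i, hi1, hi2⟩ := h2
      have h1' : H₁.Adj (f c) v' := h1
      rw [hi1] at h1'
      exact hfi _ _ h1'
    · exact h3
    · obtain ⟨i, hi1, hi2⟩ := h2
      have h3' : H₁.Adj (f c) v'' := h3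
      rw [hi1] at h3'
      exact hfi _ _ h3'
    · exact t₂ _ _ _ h1 h2 h3
    · exact h3
    · exact h1
    · exact h1
    · exact h1
  · intro s hs
    set A := s.toLeft with hA
    set B := s.toRight.toLeft with hB
    set T := s.toRight.toRight with hT
    have hcard : s.card = A.card + (B.card + T.card) := by
      rw [hA, hB, hT, Finset.card_toLeft_add_card_toRight, Finset.card_toLeft_add_card_toRight]
    have hmA : ∀ v, v ∈ A ↔ (Sum.inl v : V ⊕ W ⊕ Fin m) ∈ s := fun v => by simp [hA]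
    have hmB : ∀ w, w ∈ B ↔ (Sum.inr (Sum.inl w) : V ⊕ W ⊕ Fin m) ∈ s := fun w => by simp [hB]
    have hmT : ∀ c, c ∈ T ↔ (Sum.inr (Sum.inr c) : V ⊕ W ⊕ Fin m) ∈ s := fun c => by simp [hT]
    have hA1 : (A ∪ T.map ⟨f, hf⟩).card ≤ a := by
      apply i₁
      intro x hx y hy hxy
      rw [Finset.mem_union, Finset.mem_map] at hx hy
      rcases hx with hx | ⟨c, hc, rfl⟩
      · rcases hy with hy | ⟨c', hc', rfl⟩
        · exact hs _ ((hmA x).1 hx) _ ((hmA y).1 hy) hxy
        · exact hs _ ((hmA x).1 hx) _ ((hmT c').1 hc') hxy.symm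
      · rcases hy with hy | ⟨c', hc', rfl⟩
        · exact hs _ ((hmT c).1 hc) _ ((hmA y).1 hy) hxy
        · exact hfi _ _ hxy
    have hB1 : (B ∪ T.map ⟨g, hg⟩).card ≤ b := by
      apply i₂
      intro x hx y hy hxy
      rw [Finset.mem_union, Finset.mem_map] at hx hy
      rcases hx with hx | ⟨c, hc, rfl⟩
      · rcases hy with hy | ⟨c', hc', rfl⟩
        · exact hs _ ((hmB x).1 hx) _ ((hmB y).1 hy) hxy
        · exact hs _ ((hmB x).1 hx) _ ((hmT c').1 hc') hxy.symm
      · rcases hy with hy | ⟨c', hc', rfl⟩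
        · exact hs _ ((hmT c).1 hc) _ ((hmB y).1 hy) hxy
        · exact hgi _ _ hxy
    have hT1 : T ⊆ (T.filter (fun c => f c ∉ A)) ∪ (T.filter (fun c => g c ∉ B)) := by
      intro c hc
      rw [Finset.mem_union, Finset.mem_filter, Finset.mem_filter]
      by_cases h1 : f c ∈ A
      · right
        refine ⟨hc, fun h2 => ?_⟩
        exact hs _ ((hmA _).1 h1) _ ((hmB _).1 h2) ⟨c, rfl, rfl⟩
      · left
        exact ⟨hc, h1⟩
    have hT2 := (Finset.card_le_card hT1).trans (Finset.card_union_le _ _)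
    have hA2 : A.card + (T.filter (fun c => f c ∉ A)).card ≤ (A ∪ T.map ⟨f, hf⟩).card := by
      have hsub : A ∪ (T.filter (fun c => f c ∉ A)).map ⟨f, hf⟩ ⊆ A ∪ T.map ⟨f, hf⟩ :=
        Finset.union_subset_union le_rfl (Finset.map_subset_map.2 (Finset.filter_subset _ _))
      refine le_trans ?_ (Finset.card_le_card hsub)
      rw [Finset.card_union_of_disjoint, Finset.card_map]
      rw [Finset.disjoint_left]
      intro x hx hx'
      obtain ⟨c, hc, rfl⟩ := Finset.mem_map.1 hx'
      exact (Finset.mem_filter.1 hc).2 hx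
    have hB2 : B.card + (T.filter (fun c => g c ∉ B)).card ≤ (B ∪ T.map ⟨g, hg⟩).card := by
      have hsub : B ∪ (T.filter (fun c => g c ∉ B)).map ⟨g, hg⟩ ⊆ B ∪ T.map ⟨g, hg⟩ :=
        Finset.union_subset_union le_rfl (Finset.map_subset_map.2 (Finset.filter_subset _ _))
      refine le_trans ?_ (Finset.card_le_card hsub)
      rw [Finset.card_union_of_disjoint, Finset.card_map]
      rw [Finset.disjoint_left]
      intro x hx hx'
      obtain ⟨c, hc, rfl⟩ := Finset.mem_map.1 hx'
      exact (Finset.mem_filter.1 hc).2 hx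
    omega

end Pool.Agent.H21.RS
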