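import Pool.Agent.H21.RS.Num
import Pool.Agent.H21.RS.Def

/-!
# Splitting sums of the inverse Ramsey function
-/

namespace Pool.Agent.H21.RS

lemma goodOn_of_graph {x w : ℕ} (G : SimpleGraph (Fin x)) (h1 : G.IndepSetFree 3)
    (h2 : G.CliqueFree (w + 1)) : GoodOn (Fin x) w := by
  classical
  refine ⟨Gᶜ, ?_, ?_⟩
  · intro a b c hab hbc hac
    apply h1 {a, b, c}
    rw [← SimpleGraph.isNClique_compl, SimpleGraph.is3Clique_triple_iff]
    exact ⟨hab, hac, hbc⟩
  · intro s hs
    by_contra hcon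
    push Not at hcon
    obtain ⟨t, hts, ht⟩ := Finset.exists_subset_card_eq (show w + 1 ≤ s.card by omega)
    apply h2 t
    rw [SimpleGraph.isNClique_iff]
    refine ⟨?_, ht⟩
    intro y hy z hz hyz
    by_contra hadj
    exact hs y (hts hy) z (hts hz) (by
      rw [SimpleGraph.compl_adj]
      exact ⟨hyz, hadj⟩)

lemma graph_of_goodOn {x w : ℕ} (h : GoodOn (Fin x) w) :
    ∃ G : SimpleGraph (Fin x), G.IndepSetFree 3 ∧ G.CliqueFree (w + 1) := by
  classical
  obtain ⟨H, t, i⟩ := h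
  refine ⟨Hᶜ, ?_, ?_⟩
  · rw [SimpleGraph.indepSetFree_compl]
    intro s hs
    rw [SimpleGraph.is3Clique_iff] at hs
    obtain ⟨a, b, c, hab, hac, hbc, rfl⟩ := hs
    exact t a b c hab hbc hac
  · rw [SimpleGraph.cliqueFree_compl]
    intro s hs
    rw [SimpleGraph.isNIndepSet_iff] at hs
    have := i s (by
      intro y hy z hz hyz
      exact hs.1 hy hz hyz.ne hyz)
    omega

lemma om_le_iff {x w : ℕ} : om x ≤ w ↔ x ≤ N w := by
  rw [← good_iff]
  constructor
  · intro h
    have hne : {w | ∃ G : SimpleGraph (Fin x), G.indepNum ≤ 2 ∧ G.cliqueNum = w}.Nonempty := by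
      refine ⟨(⊤ : SimpleGraph (Fin x)).cliqueNum, ⊤, ?_, rfl⟩
      obtain ⟨s, hs⟩ := (⊤ : SimpleGraph (Fin x)).exists_isNIndepSet_indepNum
      by_contra hcon
      push Not at hcon
      rw [SimpleGraph.isNIndepSet_iff] at hs
      have h1 : 1 < s.card := by omega
      obtain ⟨y, hy, z, hz, hyz⟩ := Finset.one_lt_card.1 h1
      exact hs.1 hy hz hyz (by rw [SimpleGraph.top_adj]; exact hyz)
    obtain ⟨G, h1, h2⟩ := Nat.sInf_mem hne
    change G.cliqueNum = om x at h2
    apply goodOn_of_graph G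
    · intro s hs
      rw [SimpleGraph.isNIndepSet_iff] at hs
      have := hs.1.card_le_indepNum
      omega
    · intro s hs
      rw [SimpleGraph.isNClique_iff] at hs
      have := hs.1.card_le_cliqueNum
      omega
  · intro h
    obtain ⟨G, h1, h2⟩ := graph_of_goodOn h
    have h3 : om x ≤ G.cliqueNum := by
      apply Nat.sInf_le
      refine ⟨G, ?_, rfl⟩
      obtain ⟨s, hs⟩ := G.exists_isNIndepSet_indepNum
      by_contra hcon
      push Not at hcon
      rw [SimpleGraph.isNIndepSet_iff] at hs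
      obtain ⟨t, hts, ht⟩ := Finset.exists_subset_card_eq (show 3 ≤ s.card by omega)
      exact h1 t ((SimpleGraph.isNIndepSet_iff _ _ _).2 ⟨hs.1.mono hts, ht⟩)
    have h4 : G.cliqueNum ≤ w := by
      obtain ⟨s, hs⟩ := G.exists_isNClique_cliqueNum
      by_contra hcon
      push Not at hcon
      rw [SimpleGraph.isNClique_iff] at hs
      obtain ⟨t, hts, ht⟩ := Finset.exists_subset_card_eq (show w + 1 ≤ s.card by omega)
      exact h2 t ((SimpleGraph.isNClique_iff _).2 ⟨hs.1.subset hts, ht⟩)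
    exact h3.trans h4

lemma R3_eq (p : ℕ) : R3 (p + 1) = N p + 1 := by
  have hiff : ∀ R : ℕ, (∀ n, R ≤ n → ∀ G : SimpleGraph (Fin n),
      ¬ G.IndepSetFree 3 ∨ ¬ G.CliqueFree (p + 1)) ↔ N p + 1 ≤ R := by
    intro R
    constructor
    · intro h
      by_contra hcon
      obtain ⟨G, h1, h2⟩ := graph_of_goodOn (good_N p)
      rcases h (N p) (by omega) G with h3 | h3
      · exact h3 h1
      · exact h3 h2
    · intro h n hn G
      by_contra hcon
      push Not at hcon
      have := le_N (goodOn_of_graph G hcon.1 hcon.2)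
      omega
  unfold R3
  apply le_antisymm
  · apply Nat.sInf_le
    exact (hiff _).2 le_rfl
  · apply le_csInf
    · exact ⟨N p + 1, (hiff _).2 le_rfl⟩
    · intro R hR
      exact (hiff R).1 hR

lemma two_le_om {k : ℕ} (hk : 1 ≤ k) : 2 ≤ om (2 * k + 1) := by
  by_contra hcon
  have h1 : om (2 * k + 1) ≤ 1 := by omega
  rw [om_le_iff, N_one] at h1
  omega

lemma part_le {k : ℕ} (hk : 1 ≤ k) : 2 * k ≤ M (om (2 * k + 1) - 1) := by
  have h1 := M_add_one (om (2 * k + 1) - 1)
  have h2 := two_le_om hk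
  have e : om (2 * k + 1) - 1 + 1 = om (2 * k + 1) := by omega
  rw [e] at h1
  have h3 : 2 * k + 1 ≤ N (om (2 * k + 1)) := om_le_iff.1 le_rfl
  omega

lemma list_sum_le (l : List ℕ) (hl : ∀ a ∈ l, 1 ≤ a) :
    2 * l.sum ≤ ((l.map (fun a => om (2 * a + 1) - 1)).map M).sum := by
  induction l with
  | nil => simp
  | cons a l ih =>
    have h1 := ih (fun b hb => hl b (by simp [hb]))
    have h2 := part_le (hl a (by simp))
    simp only [List.map_cons, List.sum_cons]
    omega

lemma split_bound (l : List ℕ) (hne : l ≠ []) (hl : ∀ a ∈ l, 1 ≤ a) :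
    2 * l.sum ≤ M ((l.map (fun a => om (2 * a + 1) - 1)).sum) + 1 := by
  have h1 := list_sum_le l hl
  have h2 := M_core ((l.map (fun a => om (2 * a + 1) - 1) : List ℕ) : Multiset ℕ) (by
    intro h0
    rw [Multiset.coe_eq_zero] at h0
    exact hne (List.map_eq_nil_iff.1 h0)) (by
    intro a ha
    rw [Multiset.mem_coe, List.mem_map] at ha
    obtain ⟨b, hb, rfl⟩ := ha
    have := two_le_om (hl b hb)
    omega)
  rw [Multiset.map_coe, Multiset.sum_coe, Multiset.sum_coe] at h2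
  omega

lemma qs_mem {k : ℕ} (hk : 1 ≤ k) : ∃ l : List ℕ, l ≠ [] ∧ (∀ a ∈ l, 1 ≤ a) ∧ l.sum = k ∧
    (l.map (fun a => om (2 * a + 1) - 1)).sum = qs k := by
  have hne : {c | ∃ l : List ℕ, l ≠ [] ∧ (∀ a ∈ l, 1 ≤ a) ∧ l.sum = k ∧
    (l.map (fun a => om (2 * a + 1) - 1)).sum = c}.Nonempty :=
    ⟨_, [k], by simp, by simpa using hk, by simp, rfl⟩
  exact Nat.sInf_mem hne

lemma qs_le {k : ℕ} (hk : 1 ≤ k) : qs k ≤ om (2 * k + 1) - 1 := by
  apply Nat.sInf_le
  exact ⟨[k], by simp, by simpa using hk, by simp, by simp⟩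

/-- Main theorem: a split never gains more than one, and it gains nothing unless `2 k + 1` is
a Ramsey number `R(3, l)`. -/
theorem main (k : ℕ) (hk : 1 ≤ k) :
    qs k ≤ om (2 * k + 1) - 1 ∧ om (2 * k + 1) - 2 ≤ qs k ∧
      ((∀ l, R3 l ≠ 2 * k + 1) → qs k = om (2 * k + 1) - 1) := by
  obtain ⟨l, h1, h2, h3, h4⟩ := qs_mem hk
  have h5 := split_bound l h1 h2
  rw [h3, h4] at h5
  have h6 := qs_le hk
  have h7 := two_le_om hk
  have h8 := M_add_one (qs k)
  refine ⟨h6, ?_, ?_⟩
  · have h9 := N_succ_gt (qs k + 1)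
    have h10 : om (2 * k + 1) ≤ qs k + 1 + 1 := by
      rw [om_le_iff]
      omega
    omega
  · intro hR
    have h9 : 2 * k + 1 ≤ N (qs k + 1) := by
      by_contra hcon
      have h11 := R3_eq (qs k + 1)
      exact hR (qs k + 1 + 1) (by rw [h11]; omega)
    have h10 := om_le_iff.2 h9
    omega

end Pool.Agent.H21.RS
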