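import Pool.Agent.H21.RS.Graph
import Pool.Agent.H21.RS.Arith

/-!
# The extremal numbers `N p = R(3, p + 1) - 1`
-/

namespace Pool.Agent.H21.RS

lemma good_bound (p : ℕ) : ∃ B, ∀ n, GoodOn (Fin n) p → n ≤ B := by
  induction p with
  | zero =>
    refine ⟨0, fun n h => ?_⟩
    obtain ⟨H, h1, h2⟩ := h
    by_contra hn
    have hn' : 0 < n := by omega
    have := h2 {⟨0, hn'⟩} (by
      intro x hx y hy
      rw [Finset.mem_singleton] at hx hy
      subst hx hy
      exact H.loopless.irrefl _)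
    simp at this
  | succ a ih =>
    obtain ⟨B, hB⟩ := ih
    refine ⟨B + (a + 2), fun n h => ?_⟩
    have := hB _ (good_step h)
    omega

/-- the largest order of a triangle-free graph with independence number at most `p` -/
noncomputable def N (p : ℕ) : ℕ := sSup {n | GoodOn (Fin n) p}

lemma good_zero (p : ℕ) : GoodOn (Fin 0) p :=
  ⟨⊥, fun _ _ _ h => by simp at h, fun s _ => by
    have := Finset.card_le_univ s
    simp only [Fintype.card_fin] at this
    omega⟩

lemma good_N (p : ℕ) : GoodOn (Fin (N p)) p := by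
  obtain ⟨B, hB⟩ := good_bound p
  exact Nat.sSup_mem (s := {n | GoodOn (Fin n) p}) ⟨0, good_zero p⟩ ⟨B, fun n hn => hB n hn⟩

lemma le_N {n p : ℕ} (h : GoodOn (Fin n) p) : n ≤ N p := by
  obtain ⟨B, hB⟩ := good_bound p
  exact le_csSup ⟨B, fun n hn => hB n hn⟩ h

lemma good_iff {n p : ℕ} : GoodOn (Fin n) p ↔ n ≤ N p :=
  ⟨le_N, fun h => (good_N p).comap (Fin.castLEEmb h)⟩

lemma N_mono {p q : ℕ} (h : p ≤ q) : N p ≤ N q := le_N ((good_N p).mono h)

lemma N_step (a : ℕ) : N (a + 1) ≤ N a + a + 2 := by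
  have := le_N (good_step (good_N (a + 1)))
  omega

lemma N_zero : N 0 = 0 := by
  obtain ⟨H, h1, h2⟩ := good_N 0
  by_contra hn
  have hn' : 0 < N 0 := by omega
  have := h2 {⟨0, hn'⟩} (by
    intro x hx y hy
    rw [Finset.mem_singleton] at hx hy
    subst hx hy
    exact H.loopless.irrefl _)
  simp at this

lemma two_le_N_one : 2 ≤ N 1 := by
  apply le_N
  refine ⟨⊤, ?_, ?_⟩
  · intro a b c h1 h2 h3
    rw [SimpleGraph.top_adj] at h1 h2 h3
    omega
  · intro s hs
    by_contra hcon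
    push Not at hcon
    obtain ⟨x, hx, y, hy, hxy⟩ := Finset.one_lt_card.1 hcon
    exact hs x hx y hy (by rw [SimpleGraph.top_adj]; exact hxy)

lemma N_succ_gt (a : ℕ) : N a + 2 ≤ N (a + 1) := by
  obtain ⟨H₁, t₁, i₁⟩ := good_N a
  obtain ⟨H₂, t₂, i₂⟩ := (good_iff (n := 2) (p := 1)).2 two_le_N_one
  have h := good_glue (m := 0) H₁ H₂ t₁ t₂ i₁ i₂ Fin.elim0 Fin.elim0
    (fun i => Fin.elim0 i) (fun i => Fin.elim0 i) (fun i => Fin.elim0 i) (fun i => Fin.elim0 i)
  have h2 : GoodOn (Fin (N a + 2)) (a + 1) := goodOn_fin_of_card (by simp) h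
  exact le_N h2

/-- extremal graphs have an independent set of the full size -/
lemma exists_indep {V : Type} [Fintype V] {a : ℕ} (hV : Fintype.card V = N a)
    (H : SimpleGraph V) (t : ∀ a b c, H.Adj a b → H.Adj b c → H.Adj a c → False) :
    ∃ s : Finset V, (∀ x ∈ s, ∀ y ∈ s, ¬ H.Adj x y) ∧ a ≤ s.card := by
  by_contra hcon
  push Not at hcon
  rcases Nat.eq_zero_or_pos a with h0 | hpos
  · subst h0
    have := hcon ∅ (by simp)
    simp at this
  · obtain ⟨b, rfl⟩ : ∃ b, a = b + 1 := ⟨a - 1, by omega⟩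
    have h : GoodOn V b := ⟨H, t, fun s hs => by
      have := hcon s hs
      omega⟩
    have h2 : GoodOn (Fin (N (b + 1))) b := goodOn_fin_of_card (by rw [hV]) h
    have h3 := le_N h2
    have h4 := N_succ_gt b
    omega

lemma exists_emb {V : Type} (s : Finset V) (H : SimpleGraph V)
    (hs : ∀ x ∈ s, ∀ y ∈ s, ¬ H.Adj x y) (m : ℕ) (hm : m ≤ s.card) :
    ∃ f : Fin m → V, Function.Injective f ∧ ∀ i j, ¬ H.Adj (f i) (f j) := by
  refine ⟨fun i => (s.equivFin.symm (Fin.castLE hm i)).1, ?_, ?_⟩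
  · intro i j hij
    have h1 := Subtype.ext hij
    have h2 := s.equivFin.symm.injective h1
    exact Fin.castLE_injective hm h2
  · intro i j
    exact hs _ (s.equivFin.symm (Fin.castLE hm i)).2 _ (s.equivFin.symm (Fin.castLE hm j)).2

lemma N_add (a b : ℕ) : N a + N b + min a b ≤ N (a + b) := by
  obtain ⟨H₁, t₁, i₁⟩ := good_N a
  obtain ⟨H₂, t₂, i₂⟩ := good_N b
  obtain ⟨s₁, hs₁, hc₁⟩ := exists_indep (a := a) (by simp) H₁ t₁
  obtain ⟨s₂, hs₂, hc₂⟩ := exists_indep (a := b) (by simp) H₂ t₂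
  obtain ⟨f, hf, hfi⟩ := exists_emb s₁ H₁ hs₁ (min a b) ((min_le_left _ _).trans hc₁)
  obtain ⟨g, hg, hgi⟩ := exists_emb s₂ H₂ hs₂ (min a b) ((min_le_right _ _).trans hc₂)
  have h := good_glue H₁ H₂ t₁ t₂ i₁ i₂ f g hf hg hfi hgi
  have h2 : GoodOn (Fin (N a + N b + min a b)) (a + b) :=
    goodOn_fin_of_card (by simp; omega) h
  exact le_N h2

lemma N_one : N 1 = 2 := by
  have h1 := N_step 0
  have h2 := N_zero
  have h3 := two_le_N_one
  rw [zero_add] at h1
  omega

lemma N_two : N 2 = 5 := by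
  have h1 := N_step 1
  have h2 := N_add 1 1
  have h3 := N_one
  simp only [min_self] at h2
  norm_num at h1 h2
  omega

/-- The circulant graph on 13 vertices. -/
def adj13 (x y : Fin 13) : Bool :=
  decide ((x.1 + 13 - y.1) % 13 = 1 ∨ (x.1 + 13 - y.1) % 13 = 5 ∨ (x.1 + 13 - y.1) % 13 = 8 ∨
    (x.1 + 13 - y.1) % 13 = 12)

lemma adj13_symm : ∀ x y, adj13 x y = true → adj13 y x = true := by decide

lemma adj13_irrefl : ∀ x, adj13 x x = false := by decide

lemma adj13_tri : ∀ x y, adj13 x y = true → ∀ z, adj13 y z = true → adj13 x z = false := by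
  decide

lemma adj13_indep : ∀ a b, a < b → adj13 a b = false → ∀ c, b < c → adj13 a c = false →
    adj13 b c = false → ∀ d, c < d → adj13 a d = false → adj13 b d = false →
    adj13 c d = false → ∀ e, d < e → adj13 a e = false → adj13 b e = false →
    adj13 c e = false → adj13 d e = true := by
  decide

lemma good_13 : GoodOn (Fin 13) 4 := by
  refine ⟨⟨fun x y => adj13 x y = true, ⟨fun x y h => adj13_symm x y h⟩, ⟨fun x h => by
    rw [adj13_irrefl] at h; simp at h⟩⟩, ?_, ?_⟩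
  · intro a b c h1 h2 h3
    have h1' : adj13 a b = true := h1
    have h2' : adj13 b c = true := h2
    have h3' : adj13 a c = true := h3
    have := adj13_tri a b h1' c h2'
    rw [this] at h3'
    simp at h3'
  · intro s hs
    by_contra hcon
    push Not at hcon
    have hs' : ∀ x ∈ s, ∀ y ∈ s, adj13 x y = false := by
      intro x hx y hy
      have := hs x hx y hy
      change ¬ (adj13 x y = true) at this
      simpa using this
    let e := s.orderEmbOfFin rfl
    have hmem : ∀ i, e i ∈ s := fun i => s.orderEmbOfFin_mem rfl i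
    have hlt : ∀ i j : ℕ, ∀ (hi : i < s.card) (hj : j < s.card), i < j →
        e ⟨i, hi⟩ < e ⟨j, hj⟩ := fun i j hi hj hij => e.lt_iff_lt.2 hij
    have h0 : 0 < s.card := by omega
    have h1 : 1 < s.card := by omega
    have h2 : 2 < s.card := by omega
    have h3 : 3 < s.card := by omega
    have h4 : 4 < s.card := by omega
    have := adj13_indep (e ⟨0, h0⟩) (e ⟨1, h1⟩) (hlt _ _ _ _ (by norm_num))
      (hs' _ (hmem _) _ (hmem _)) (e ⟨2, h2⟩) (hlt _ _ _ _ (by norm_num))
      (hs' _ (hmem _) _ (hmem _)) (hs' _ (hmem _) _ (hmem _))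
      (e ⟨3, h3⟩) (hlt _ _ _ _ (by norm_num))
      (hs' _ (hmem _) _ (hmem _)) (hs' _ (hmem _) _ (hmem _)) (hs' _ (hmem _) _ (hmem _))
      (e ⟨4, h4⟩) (hlt _ _ _ _ (by norm_num))
      (hs' _ (hmem _) _ (hmem _)) (hs' _ (hmem _) _ (hmem _)) (hs' _ (hmem _) _ (hmem _))
    rw [hs' _ (hmem _) _ (hmem _)] at this
    simp at this

/-- shifted extremal numbers -/
noncomputable def M (a : ℕ) : ℕ := N (a + 1) - 1

lemma M_add_one (a : ℕ) : M a + 1 = N (a + 1) := by
  have := N_succ_gt a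
  unfold M
  omega

lemma M_one : M 1 = 4 := by
  have := N_two
  unfold M
  norm_num
  omega

lemma M_three : 12 ≤ M 3 := by
  have := le_N good_13
  unfold M
  norm_num
  omega

lemma M_I (a b : ℕ) (hb : 1 ≤ b) : M a + M (b - 1) + 1 + min (a + 1) b ≤ M (a + b) := by
  have h1 := M_add_one a
  have h2 := M_add_one (b - 1)
  have h3 := M_add_one (a + b)
  have e : b - 1 + 1 = b := by omega
  rw [e] at h2
  have h4 := N_add (a + 1) b
  have e2 : a + 1 + b = a + b + 1 := by ring
  rw [e2] at h4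
  omega

lemma M_II (a : ℕ) (ha : 1 ≤ a) : M a ≤ M (a - 1) + a + 2 := by
  have h1 := M_add_one a
  have h2 := M_add_one (a - 1)
  have e : a - 1 + 1 = a := by omega
  rw [e] at h2
  have h4 := N_step a
  omega

/-- A split of `A` costs at most one. -/
theorem M_core (A : Multiset ℕ) (hA : A ≠ 0) (hpos : ∀ a ∈ A, 1 ≤ a) :
    (A.map M).sum ≤ M A.sum + 1 :=
  core M_one M_three M_I M_II _ A rfl hA hpos

end Pool.Agent.H21.RS
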